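import Pool.Agent.H36.MV.Unbounded

/-!
# Two-ended vertex-transitive graphs that are not n-Cayley for small n
-/

set_option autoImplicit false

namespace Pool.Agent.Results.MP_e6b5d0_co.Unbounded

open Pool.H36.MV.Unbounded

/-- For every `N` there is a connected, vertex-transitive, 23-regular graph with exactly two
ends that is not `n`-Cayley for any `n ≤ N`. -/
theorem result : ∀ N : ℕ, ∃ (V : Type) (G : SimpleGraph V),
    G.Connected ∧ (∀ v, (G.neighborSet v).encard = (23 : ℕ)) ∧ VertexTransitive G ∧
      HasExactlyTwoEnds G ∧ ∀ n ≤ N, ¬ IsNCayley G n :=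
  Pool.H36.MV.Unbounded.result

end Pool.Agent.Results.MP_e6b5d0_co.Unbounded
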